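import Pool.Agent.Lib.MP_ed1a61_al_W.Defs

/-!
# A hyperbolic group with an element of irrational scl: the group (MP_ed1a61_al, S03478)

Text with all the proofs: /team-store/MP_ed1a61_h98_irrational.md (captain: helper98).
Letters of words: `(x, true)` is the letter `x`, `(x, false)` its inverse.
The letters `a`, `b` are also numbered by `Fin 2`, the letters `c, d, e, f` by `Fin 4`.
-/

set_option autoImplicit false

namespace SclIrr

/-- the eight generators -/
inductive X
  | a | b | t | s | c | d | e | f
  deriving DecidableEq, Fintype

/-- the letters `a` and `b` -/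
def ab : Fin 2 → X
  | 0 => X.a
  | 1 => X.b

/-- the letters `c, d, e, f` -/
def cf : Fin 4 → X
  | 0 => X.c
  | 1 => X.d
  | 2 => X.e
  | 3 => X.f

/-- the word `[c,d][e,f]` in the letters `0, 1, 2, 3` -/
def xW : List (Fin 4 × Bool) :=
  [(0, true), (1, true), (0, false), (1, false), (2, true), (3, true), (2, false), (3, false)]

/-- the exponent `m = 6000` -/
def mexp : ℕ := 6000

/-- the four kinds of relators -/
inductive R
  | tab (y : Fin 2)
  | ss
  | bx
  deriving DecidableEq, Fintype

/-- the relators `t y t⁻¹ φ(y)⁻¹` (`y = a, b`), `s²`, `b^m ([c,d][e,f])⁻¹` -/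
def rel : R → List (X × Bool)
  | R.tab y => [(X.t, true), (ab y, true), (X.t, false)] ++
      FreeGroup.invRev ((W.pos (W.phL y)).map (Prod.map ab id))
  | R.ss => [(X.s, true), (X.s, true)]
  | R.bx => List.replicate mexp (X.b, true) ++ FreeGroup.invRev (xW.map (Prod.map cf id))

/-- the group -/
abbrev G : Type := PresentedGroup (Set.range fun j => FreeGroup.mk (rel j))

/-- the generators of the group -/
def gam (x : X) : G := PresentedGroup.of x

end SclIrr
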